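import Pool.Agent.TH181.MX.Lin
import Pool.Agent.TH181.MW.HuaB

/-! # Hua type recursion for the system of degrees `1, k` -/

set_option autoImplicit false

open Finset MeasureTheory

namespace Pool.Agent.U762.WS

open Pool.Agent.W928.MW (e sm e_add e_norm e_sub_re e_cont sm_le)
open Pool.Agent.TH181.MW (tup prs p Q J e_zero sm_pow p_sq p_cont Q_cont Q_nonneg int_cos int_Q LS mem_LS AA ph TT
  weyl' ph_id Lam Lam_zero Lam_nonzero tup_sum_le)

/-- moment over the linear coefficient -/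
theorem par (s k N : ℕ) (t : ℝ) :
    ∫ ξ in ((0 : ℤ) : ℝ)..((1 : ℤ) : ℝ), ‖sm k N t ξ‖ ^ (2 * s) = Q s k N t := by
  have h1 : ∀ ξ : ℝ, ‖sm k N t ξ‖ ^ (2 * s) =
      ‖∑ i ∈ range (s * N + 1), e (ξ * (((i : ℕ) : ℤ) : ℝ)) * p s k N i t‖ ^ 2 := by
    intro ξ
    have h2 : ‖sm k N t ξ‖ ^ (2 * s) = ‖sm k N t ξ ^ s‖ ^ 2 := by
      rw [norm_pow, ← pow_mul, mul_comm]
    rw [h2, sm_pow]
    congr 2
  simp_rw [h1]
  rw [Pool.Agent.TH181.MX.parseval (range (s * N + 1)) (fun i : ℕ => (i : ℤ)) (fun a _ b _ h => by simpa using h)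
    (fun i => p s k N i t) 0 1]
  unfold Q
  simp

theorem sm_cont_x (k N : ℕ) (t : ℝ) : Continuous (fun ξ : ℝ => sm k N t ξ) := by
  have h := Pool.Agent.TH181.MX.sm_cont k N t 0
  simpa using h

/-- the differenced sum at level at least two does not depend on the linear coefficient -/
theorem TT_free (k N : ℕ) (t ξ : ℝ) (l : List ℤ) (hl : 2 ≤ l.length) : TT k N t ξ l = TT k N t 0 l := by
  unfold TT
  apply Finset.sum_congr rfl
  intro n _
  rw [ph_id l hl n]
  simp

noncomputable def R (k N j : ℕ) (t : ℝ) : ℝ := (∑ l ∈ LS (Icc (-(N : ℤ)) N) (j + 1), TT k N t 0 l).re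

theorem R_eq (k N j : ℕ) (t : ℝ) : R k N j t =
    ∑ z ∈ Lam N (j + 1), Real.cos (2 * Real.pi * (t * ((ph (fun n => n ^ k) z.1 z.2 : ℤ) : ℝ))) := by
  unfold R Lam
  rw [Finset.sum_sigma, Complex.re_sum]
  apply Finset.sum_congr rfl
  intro l _
  unfold TT
  rw [Complex.re_sum]
  apply Finset.sum_congr rfl
  intro n _
  have h := e_sub_re (t * ((ph (fun n => n ^ k) l n : ℤ) : ℝ)) 0
  rw [e_zero] at h
  simp only [map_one, mul_one, sub_zero] at h
  rw [← h]
  congr 2
  ring

/-- one step: pointwise in `t` -/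
theorem Q_step (s k N j : ℕ) (hj : 1 ≤ j) (t : ℝ) :
    Q (s + 2 ^ j) k N t ≤ (2 * (N : ℝ) + 1) ^ (2 ^ (j + 1) - (j + 1) - 1) * R k N j t * Q s k N t := by
  rw [← par, ← par s, ← intervalIntegral.integral_const_mul]
  have hc := sm_cont_x k N t
  apply intervalIntegral.integral_mono_on (by simp)
  · exact ((hc.norm).pow _).intervalIntegrable _ _
  · exact (((hc.norm).pow _).const_mul _).intervalIntegrable _ _
  intro ξ _
  have h1 := weyl' k N j t ξ
  have h2 : (∑ l ∈ LS (Icc (-(N : ℤ)) N) (j + 1), TT k N t ξ l) =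
      ∑ l ∈ LS (Icc (-(N : ℤ)) N) (j + 1), TT k N t 0 l := by
    apply Finset.sum_congr rfl
    intro l hl
    rw [mem_LS] at hl
    exact TT_free k N t ξ l (by omega)
  rw [h2] at h1
  have h3 : 2 * (s + 2 ^ j) = 2 ^ (j + 1) + 2 * s := by rw [pow_succ]; ring
  rw [h3, pow_add]
  exact mul_le_mul_of_nonneg_right h1 (by positivity)

theorem cos_cos (a b : ℤ) : ∫ t in ((0 : ℤ) : ℝ)..((1 : ℤ) : ℝ),
    Real.cos (2 * Real.pi * (t * (a : ℝ))) * Real.cos (2 * Real.pi * (t * (b : ℝ))) =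
    (1 / 2) * ((if a = -b then 1 else 0) + (if a = b then 1 else 0)) := by
  have h1 : ∀ t : ℝ, Real.cos (2 * Real.pi * (t * (a : ℝ))) * Real.cos (2 * Real.pi * (t * (b : ℝ))) =
      (1 / 2) * (Real.cos (2 * Real.pi * (t * ((a + b : ℤ) : ℝ))) +
        Real.cos (2 * Real.pi * (t * ((a - b : ℤ) : ℝ)))) := by
    intro t
    have e1 : 2 * Real.pi * (t * ((a + b : ℤ) : ℝ)) = 2 * Real.pi * (t * (a : ℝ)) + 2 * Real.pi * (t * (b : ℝ)) := by
      push_cast; ring
    have e2 : 2 * Real.pi * (t * ((a - b : ℤ) : ℝ)) = 2 * Real.pi * (t * (a : ℝ)) - 2 * Real.pi * (t * (b : ℝ)) := by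
      push_cast; ring
    rw [e1, e2, Real.cos_add, Real.cos_sub]
    ring
  simp_rw [h1]
  rw [intervalIntegral.integral_const_mul, intervalIntegral.integral_add, int_cos, int_cos]
  · have c1 : (a + b = 0) ↔ (a = -b) := by omega
    have c2 : (a - b = 0) ↔ (a = b) := by omega
    simp only [c1, c2]
    simp
  · apply Continuous.intervalIntegrable; fun_prop
  · apply Continuous.intervalIntegrable; fun_prop

theorem prs_card (s N m : ℕ) : (prs (s + 1) N m).card ≤ N ^ s := by
  have h1 : (tup s N).card = N ^ s := by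
    unfold tup
    rw [Fintype.card_piFinset_const, Nat.card_Icc, Nat.add_sub_cancel]
  rw [← h1]
  apply Finset.card_le_card_of_injOn (fun w => Fin.tail w)
  · intro w hw
    have hw' : w ∈ prs (s + 1) N m := hw
    unfold prs tup at hw'
    rw [Finset.mem_filter, Fintype.mem_piFinset] at hw'
    show Fin.tail w ∈ tup s N
    unfold tup
    rw [Fintype.mem_piFinset]
    intro i
    exact hw'.1 i.succ
  · intro w hw w' hw' h
    have g1 : w ∈ prs (s + 1) N m := hw
    have g2 : w' ∈ prs (s + 1) N m := hw'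
    unfold prs at g1 g2
    rw [Finset.mem_filter] at g1 g2
    have g3 := g1.2
    have g4 := g2.2
    rw [Fin.sum_univ_succ] at g3 g4
    have ht : ∀ i : Fin s, w i.succ = w' i.succ := fun i => congrFun h i
    have g5 : ∑ i : Fin s, w i.succ = ∑ i : Fin s, w' i.succ := Finset.sum_congr rfl (fun i _ => ht i)
    have g6 : w 0 = w' 0 := by omega
    funext i
    refine Fin.cases g6 ht i

theorem tup_card (s N : ℕ) : (tup s N).card = N ^ s := by
  unfold tup
  rw [Fintype.card_piFinset_const, Nat.card_Icc, Nat.add_sub_cancel]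

/-- pairs with equal sums -/
theorem pairs_card (s N : ℕ) : ∑ m ∈ range ((s + 1) * N + 1), ((prs (s + 1) N m) ×ˢ (prs (s + 1) N m)).card ≤
    N ^ s * N ^ (s + 1) := by
  have h1 : ∑ m ∈ range ((s + 1) * N + 1), (prs (s + 1) N m).card = (tup (s + 1) N).card := by
    unfold prs
    rw [← Finset.card_eq_sum_card_fiberwise (f := fun z : Fin (s + 1) → ℕ => ∑ i, z i)]
    intro z hz
    have := tup_sum_le (s + 1) N z hz
    simp only [Finset.coe_range, Set.mem_Iio]
    omega
  calc ∑ m ∈ range ((s + 1) * N + 1), ((prs (s + 1) N m) ×ˢ (prs (s + 1) N m)).card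
      ≤ ∑ m ∈ range ((s + 1) * N + 1), N ^ s * (prs (s + 1) N m).card := by
        apply Finset.sum_le_sum
        intro m _
        rw [Finset.card_product]
        exact Nat.mul_le_mul_right _ (prs_card s N m)
    _ = N ^ s * N ^ (s + 1) := by rw [← Finset.mul_sum, h1, tup_card]

end Pool.Agent.U762.WS
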