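import Pool.Agent.U762.WS.HuA
import Pool.Agent.W225.MWDIO

/-! # Hua type recursion: the count -/

set_option autoImplicit false

open Finset MeasureTheory

namespace Pool.Agent.U762.WS

open Pool.Agent.W928.MW (e sm)
open Pool.Agent.TH181.MW (tup prs p Q J p_sq p_cont Q_cont Q_nonneg int_Q LS AA ph TT Lam Lam_zero Lam_nonzero
  tup_sum_le)

/-- the difference of the sums of powers -/
def AD (s k : ℕ) (z : (Fin s → ℕ) × (Fin s → ℕ)) : ℤ := ((∑ i, z.1 i ^ k : ℕ) : ℤ) - ((∑ i, z.2 i ^ k : ℕ) : ℤ)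

theorem p_sq' (s k N m : ℕ) (t : ℝ) : ‖p s k N m t‖ ^ 2 = ∑ z ∈ (prs s N m) ×ˢ (prs s N m),
    Real.cos (2 * Real.pi * (t * ((AD s k z : ℤ) : ℝ))) := by
  rw [p_sq, ← Finset.sum_product']
  apply Finset.sum_congr rfl
  intro z _
  congr 3
  unfold AD
  push_cast
  ring

/-- `J` as a sum over fibres -/
theorem J_fib (s k N : ℕ) : (J s k N : ℝ) = ∑ m ∈ range (s * N + 1),
    ((((prs s N m) ×ˢ (prs s N m)).filter (fun z => AD s k z = 0)).card : ℝ) := by
  have h1 := int_Q s k N 0 1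
  have h2 : ∫ t in ((0 : ℤ) : ℝ)..((1 : ℤ) : ℝ), Q s k N t = ∑ m ∈ range (s * N + 1),
      ((((prs s N m) ×ˢ (prs s N m)).filter (fun z => AD s k z = 0)).card : ℝ) := by
    unfold Q
    rw [intervalIntegral.integral_finsetSum]
    · apply Finset.sum_congr rfl
      intro m _
      simp_rw [p_sq']
      rw [intervalIntegral.integral_finsetSum]
      · simp_rw [Pool.Agent.TH181.MW.int_cos]
        rw [Finset.sum_ite, Finset.sum_const_zero, add_zero, Finset.sum_const, nsmul_eq_mul]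
        simp
      · intro z _
        apply Continuous.intervalIntegrable
        fun_prop
    · intro m _
      exact (((p_cont s k N m).norm).pow 2).intervalIntegrable _ _
  rw [h2] at h1
  rw [h1]
  simp

theorem cnt_bd (k N j D : ℕ) (hj : j + 1 < k) (M : ℕ)
    (hD : ∀ m : ℕ, 1 ≤ m → m ≤ M → m.divisors.card ≤ D) (a : ℤ) (ha : a.natAbs ≤ M) :
    (((Lam N (j + 1)).filter (fun z => ph (fun n => n ^ k) z.1 z.2 = a)).card : ℝ) ≤
      (if a = 0 then (((j + 1 + k) * (2 * N + 1) ^ (j + 1) : ℕ) : ℝ) else 0) + (((2 * D) ^ (j + 1) * k : ℕ) : ℝ) := by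
  split_ifs with h
  · subst h
    have h1 := Lam_zero k N (j + 1) hj
    have h2 : (((Lam N (j + 1)).filter (fun z => ph (fun n => n ^ k) z.1 z.2 = 0)).card : ℝ) ≤
      (((j + 1 + k) * (2 * N + 1) ^ (j + 1) : ℕ) : ℝ) := by exact_mod_cast h1
    have h3 : (0 : ℝ) ≤ (((2 * D) ^ (j + 1) * k : ℕ) : ℝ) := Nat.cast_nonneg _
    linarith
  · have h4 : 1 ≤ a.natAbs := Int.natAbs_pos.mpr h
    have h1 := Lam_nonzero k N (j + 1) D hj a h (hD _ h4 ha)
    rw [zero_add]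
    exact_mod_cast h1

/-- the mean value of the product -/
theorem int_RQ (s k N j D : ℕ) (hj : j + 1 < k) (M : ℕ)
    (hD : ∀ m : ℕ, 1 ≤ m → m ≤ M → m.divisors.card ≤ D)
    (hM : ∀ m, ∀ z ∈ (prs s N m) ×ˢ (prs s N m), (AD s k z).natAbs ≤ M) :
    ∫ t in ((0 : ℤ) : ℝ)..((1 : ℤ) : ℝ), R k N j t * Q s k N t ≤
      (((j + 1 + k) * (2 * N + 1) ^ (j + 1) : ℕ) : ℝ) * (J s k N : ℝ) + (((2 * D) ^ (j + 1) * k : ℕ) : ℝ) *
        ∑ m ∈ range (s * N + 1), (((prs s N m) ×ˢ (prs s N m)).card : ℝ) := by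
  set Z : ℝ := (((j + 1 + k) * (2 * N + 1) ^ (j + 1) : ℕ) : ℝ) with hZ
  set Y : ℝ := (((2 * D) ^ (j + 1) * k : ℕ) : ℝ) with hY
  have h1 : ∀ t : ℝ, R k N j t * Q s k N t = ∑ m ∈ range (s * N + 1), ∑ z ∈ (prs s N m) ×ˢ (prs s N m),
      ∑ w ∈ Lam N (j + 1), Real.cos (2 * Real.pi * (t * ((ph (fun n => n ^ k) w.1 w.2 : ℤ) : ℝ))) *
        Real.cos (2 * Real.pi * (t * ((AD s k z : ℤ) : ℝ))) := by
    intro t
    unfold Q
    rw [R_eq, Finset.mul_sum]
    apply Finset.sum_congr rfl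
    intro m _
    rw [p_sq', Finset.mul_sum]
    apply Finset.sum_congr rfl
    intro z _
    rw [Finset.sum_mul]
  simp_rw [h1]
  have hci : ∀ (a b : ℤ), IntervalIntegrable (fun t : ℝ => Real.cos (2 * Real.pi * (t * (a : ℝ))) *
      Real.cos (2 * Real.pi * (t * (b : ℝ)))) volume ((0 : ℤ) : ℝ) ((1 : ℤ) : ℝ) := by
    intro a b
    apply Continuous.intervalIntegrable
    fun_prop
  rw [intervalIntegral.integral_finsetSum]
  · have h2 : ∀ m ∈ range (s * N + 1), ∫ t in ((0 : ℤ) : ℝ)..((1 : ℤ) : ℝ), ∑ z ∈ (prs s N m) ×ˢ (prs s N m),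
        ∑ w ∈ Lam N (j + 1), Real.cos (2 * Real.pi * (t * ((ph (fun n => n ^ k) w.1 w.2 : ℤ) : ℝ))) *
        Real.cos (2 * Real.pi * (t * ((AD s k z : ℤ) : ℝ))) ≤
        Z * ((((prs s N m) ×ˢ (prs s N m)).filter (fun z => AD s k z = 0)).card : ℝ) +
          Y * (((prs s N m) ×ˢ (prs s N m)).card : ℝ) := by
      intro m _
      rw [intervalIntegral.integral_finsetSum]
      · have h3 : ∀ z ∈ (prs s N m) ×ˢ (prs s N m), ∫ t in ((0 : ℤ) : ℝ)..((1 : ℤ) : ℝ),
            ∑ w ∈ Lam N (j + 1), Real.cos (2 * Real.pi * (t * ((ph (fun n => n ^ k) w.1 w.2 : ℤ) : ℝ))) *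
            Real.cos (2 * Real.pi * (t * ((AD s k z : ℤ) : ℝ))) ≤
            (if AD s k z = 0 then Z else 0) + Y := by
          intro z hz
          rw [intervalIntegral.integral_finsetSum]
          · simp_rw [cos_cos]
            rw [← Finset.mul_sum, Finset.sum_add_distrib, Finset.sum_boole, Finset.sum_boole]
            have g1 := cnt_bd k N j D hj M hD (AD s k z) (hM m z hz)
            have g2 := cnt_bd k N j D hj M hD (-(AD s k z)) (by rw [Int.natAbs_neg]; exact hM m z hz)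
            have g3 : (-(AD s k z) = 0) ↔ (AD s k z = 0) := neg_eq_zero
            simp only [g3] at g2
            linarith
          · intro w _
            exact hci _ _
        refine (Finset.sum_le_sum h3).trans (le_of_eq ?_)
        rw [Finset.sum_add_distrib, ← Finset.sum_filter, Finset.sum_const, Finset.sum_const, nsmul_eq_mul,
          nsmul_eq_mul]
        ring
      · intro z _
        apply Continuous.intervalIntegrable
        fun_prop
    refine (Finset.sum_le_sum h2).trans (le_of_eq ?_)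
    rw [Finset.sum_add_distrib, ← Finset.mul_sum, ← Finset.mul_sum, J_fib]
  · intro m _
    apply Continuous.intervalIntegrable
    fun_prop

theorem AD_le (s k N m : ℕ) (z : (Fin s → ℕ) × (Fin s → ℕ)) (hz : z ∈ (prs s N m) ×ˢ (prs s N m)) :
    (AD s k z).natAbs ≤ s * N ^ k := by
  rw [Finset.mem_product] at hz
  have hb : ∀ w : Fin s → ℕ, w ∈ prs s N m → ∑ i, w i ^ k ≤ s * N ^ k := by
    intro w hw
    unfold prs tup at hw
    rw [Finset.mem_filter, Fintype.mem_piFinset] at hw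
    calc ∑ i, w i ^ k ≤ ∑ _i : Fin s, N ^ k :=
          Finset.sum_le_sum (fun i _ => Nat.pow_le_pow_left (Finset.mem_Icc.mp (hw.1 i)).2 k)
      _ = s * N ^ k := by simp
  have h1 := hb z.1 hz.1
  have h2 := hb z.2 hz.2
  unfold AD
  omega

/-- **One step of the recursion.** -/
theorem step (s k N j D : ℕ) (hj1 : 1 ≤ j) (hj : j + 1 < k)
    (hD : ∀ m : ℕ, 1 ≤ m → m ≤ (s + 1) * N ^ k → m.divisors.card ≤ D) :
    (J (s + 1 + 2 ^ j) k N : ℝ) ≤ (2 * (N : ℝ) + 1) ^ (2 ^ (j + 1) - (j + 1) - 1) *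
      ((((j + 1 + k) * (2 * N + 1) ^ (j + 1) : ℕ) : ℝ) * (J (s + 1) k N : ℝ) + (((2 * D) ^ (j + 1) * k : ℕ) : ℝ) *
        ((N : ℝ) ^ s * (N : ℝ) ^ (s + 1))) := by
  have h0 := int_Q (s + 1 + 2 ^ j) k N 0 1
  have h1 : (J (s + 1 + 2 ^ j) k N : ℝ) = ∫ t in ((0 : ℤ) : ℝ)..((1 : ℤ) : ℝ), Q (s + 1 + 2 ^ j) k N t := by
    rw [h0]; simp
  have hRc : Continuous (fun t => R k N j t) := by
    simp_rw [R_eq]
    fun_prop
  have h2 : ∫ t in ((0 : ℤ) : ℝ)..((1 : ℤ) : ℝ), Q (s + 1 + 2 ^ j) k N t ≤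
      ∫ t in ((0 : ℤ) : ℝ)..((1 : ℤ) : ℝ), (2 * (N : ℝ) + 1) ^ (2 ^ (j + 1) - (j + 1) - 1) *
        (R k N j t * Q (s + 1) k N t) := by
    apply intervalIntegral.integral_mono_on (by simp)
    · exact (Q_cont _ _ _).intervalIntegrable _ _
    · exact ((hRc.mul (Q_cont (s + 1) k N)).const_mul _).intervalIntegrable _ _
    intro t _
    rw [← mul_assoc]
    exact Q_step (s + 1) k N j hj1 t
  rw [intervalIntegral.integral_const_mul] at h2
  have h3 := int_RQ (s + 1) k N j D hj ((s + 1) * N ^ k) hD (fun m z hz => AD_le (s + 1) k N m z hz)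
  have h4 : ∑ m ∈ range ((s + 1) * N + 1), (((prs (s + 1) N m) ×ˢ (prs (s + 1) N m)).card : ℝ) ≤
      (N : ℝ) ^ s * (N : ℝ) ^ (s + 1) := by
    have := pairs_card s N
    exact_mod_cast this
  rw [h1]
  refine h2.trans ?_
  apply mul_le_mul_of_nonneg_left _ (by positivity)
  refine h3.trans ?_
  have h5 : (0 : ℝ) ≤ (((2 * D) ^ (j + 1) * k : ℕ) : ℝ) := Nat.cast_nonneg _
  have h6 := mul_le_mul_of_nonneg_left h4 h5
  linarith

end Pool.Agent.U762.WS
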