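import Pool.Agent.U762.WS.HuB
import Pool.Agent.Helper112.Arith

/-! # Number of solutions: bounds -/

set_option autoImplicit false

open Finset MeasureTheory

namespace Pool.Agent.U762.WS

open Pool.Agent.TH181.MW (tup prs J)

theorem J_two (k N : ℕ) (hk : 2 ≤ k) : J 2 k N ≤ 2 * N ^ 2 := by
  have hT : (tup 2 N).card = N ^ 2 := tup_card 2 N
  have hsub : ((tup 2 N) ×ˢ (tup 2 N)).filter
      (fun z => ∑ i, z.1 i = ∑ i, z.2 i ∧ ∑ i, z.1 i ^ k = ∑ i, z.2 i ^ k) ⊆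
      (tup 2 N).image (fun x => (x, x)) ∪ (tup 2 N).image (fun x => (x, ![x 1, x 0])) := by
    intro z hz
    rw [Finset.mem_filter, Finset.mem_product] at hz
    obtain ⟨⟨h1, h2⟩, h3, h4⟩ := hz
    rw [Fin.sum_univ_two, Fin.sum_univ_two] at h3 h4
    have h1' := h1
    unfold tup at h1'
    rw [Fintype.mem_piFinset] at h1'
    have hx0 := Finset.mem_Icc.mp (h1' 0)
    have hd := Pool.Agent.W225.MWD.t k (z.1 0) (z.1 1) (z.2 0) (z.2 1) hk h3
    have h5 : ((z.1 0 : ℕ) : ℝ) ^ k + ((z.1 1 : ℕ) : ℝ) ^ k - ((z.2 0 : ℕ) : ℝ) ^ k - ((z.2 1 : ℕ) : ℝ) ^ k = 0 := by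
      have : (((z.1 0 ^ k + z.1 1 ^ k : ℕ)) : ℝ) = ((z.2 0 ^ k + z.2 1 ^ k : ℕ) : ℝ) := by rw [h4]
      push_cast at this
      linarith
    rw [h5, abs_zero] at hd
    have hmax : (0 : ℝ) < max (max ((z.1 0 : ℕ) : ℝ) ((z.1 1 : ℕ) : ℝ)) (max ((z.2 0 : ℕ) : ℝ) ((z.2 1 : ℕ) : ℝ)) := by
      have : (1 : ℝ) ≤ ((z.1 0 : ℕ) : ℝ) := by exact_mod_cast hx0.1
      exact lt_of_lt_of_le (by linarith) ((le_max_left _ _).trans (le_max_left _ _))
    have hmp : 0 < (max (max ((z.1 0 : ℕ) : ℝ) ((z.1 1 : ℕ) : ℝ)) (max ((z.2 0 : ℕ) : ℝ) ((z.2 1 : ℕ) : ℝ))) ^ (k - 2) :=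
      pow_pos hmax _
    have h6 : |((z.1 0 : ℕ) : ℝ) - ((z.2 0 : ℕ) : ℝ)| * |((z.1 0 : ℕ) : ℝ) - ((z.2 1 : ℕ) : ℝ)| = 0 := by
      by_contra hne
      have hpos : 0 < |((z.1 0 : ℕ) : ℝ) - ((z.2 0 : ℕ) : ℝ)| * |((z.1 0 : ℕ) : ℝ) - ((z.2 1 : ℕ) : ℝ)| :=
        lt_of_le_of_ne (by positivity) (Ne.symm hne)
      have := mul_pos hpos hmp
      linarith
    rw [Finset.mem_union, Finset.mem_image, Finset.mem_image]
    rcases mul_eq_zero.mp h6 with h7 | h7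
    · left
      have h8 : z.1 0 = z.2 0 := by
        have := sub_eq_zero.mp (abs_eq_zero.mp h7)
        exact_mod_cast this
      have h9 : z.1 1 = z.2 1 := by omega
      refine ⟨z.1, h1, ?_⟩
      have : z.1 = z.2 := by
        funext i
        fin_cases i
        · exact h8
        · exact h9
      exact Prod.ext rfl this
    · right
      have h8 : z.1 0 = z.2 1 := by
        have := sub_eq_zero.mp (abs_eq_zero.mp h7)
        exact_mod_cast this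
      have h9 : z.1 1 = z.2 0 := by omega
      refine ⟨z.1, h1, ?_⟩
      have : ![z.1 1, z.1 0] = z.2 := by
        funext i
        fin_cases i
        · simpa using h9
        · simpa using h8
      exact Prod.ext rfl this
  unfold J
  refine (Finset.card_le_card hsub).trans ?_
  refine (Finset.card_union_le _ _).trans ?_
  have a1 := Finset.card_image_le (s := tup 2 N) (f := fun x : Fin 2 → ℕ => (x, x))
  have a2 := Finset.card_image_le (s := tup 2 N) (f := fun x : Fin 2 → ℕ => (x, ![x 1, x 0]))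
  rw [hT] at a1 a2
  omega

theorem cube_id (a b c : ℕ) : (a + b + c) ^ 3 = a ^ 3 + b ^ 3 + c ^ 3 + 3 * ((a + b) * (b + c) * (c + a)) := by
  ring

/-- six cubes and a linear equation -/
theorem J_three (N D : ℕ) (hD : ∀ m : ℕ, 1 ≤ m → m ≤ (2 * N) ^ 3 → m.divisors.card ≤ D) :
    J 3 3 N ≤ N ^ 3 * D ^ 3 := by
  have hT : (tup 3 N).card = N ^ 3 := tup_card 3 N
  have h1 : J 3 3 N = ∑ x ∈ tup 3 N, ((tup 3 N).filter
      (fun y => ∑ i, x i = ∑ i, y i ∧ ∑ i, x i ^ 3 = ∑ i, y i ^ 3)).card := by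
    unfold J
    rw [← Finset.card_sigma]
    apply Finset.card_nbij' (fun z => ⟨z.1, z.2⟩) (fun z => (z.1, z.2))
    · intro z hz
      have hz' := Finset.mem_filter.mp hz
      rw [Finset.mem_product] at hz'
      show _ ∈ Finset.sigma _ _
      rw [Finset.mem_sigma, Finset.mem_filter]
      exact ⟨hz'.1.1, hz'.1.2, hz'.2⟩
    · intro z hz
      have hz' : z ∈ Finset.sigma _ _ := hz
      rw [Finset.mem_sigma, Finset.mem_filter] at hz'
      show _ ∈ Finset.filter _ _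
      rw [Finset.mem_filter, Finset.mem_product]
      exact ⟨⟨hz'.1, hz'.2.1⟩, hz'.2.2⟩
    · intro z _; rfl
    · intro z _; rfl
  rw [h1, ← hT]
  have h2 : ∀ x ∈ tup 3 N, ((tup 3 N).filter
      (fun y => ∑ i, x i = ∑ i, y i ∧ ∑ i, x i ^ 3 = ∑ i, y i ^ 3)).card ≤ D ^ 3 := by
    intro x hx
    have hx' := hx
    unfold tup at hx'
    rw [Fintype.mem_piFinset] at hx'
    have b0 := Finset.mem_Icc.mp (hx' 0)
    have b1 := Finset.mem_Icc.mp (hx' 1)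
    have b2 := Finset.mem_Icc.mp (hx' 2)
    set n : ℕ := (x 0 + x 1) * (x 1 + x 2) * (x 2 + x 0) with hn
    have hn1 : 1 ≤ n := by
      rw [hn]
      have : 0 < (x 0 + x 1) * (x 1 + x 2) * (x 2 + x 0) := by
        apply Nat.mul_pos (Nat.mul_pos (by omega) (by omega)) (by omega)
      exact this
    have hn2 : n ≤ (2 * N) ^ 3 := by
      rw [hn]
      calc (x 0 + x 1) * (x 1 + x 2) * (x 2 + x 0) ≤ (2 * N) * (2 * N) * (2 * N) :=
            Nat.mul_le_mul (Nat.mul_le_mul (by omega) (by omega)) (by omega)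
        _ = (2 * N) ^ 3 := by ring
    have hdn := hD n hn1 hn2
    have h3 : ((tup 3 N).filter (fun y => ∑ i, x i = ∑ i, y i ∧ ∑ i, x i ^ 3 = ∑ i, y i ^ 3)).card ≤
        (n.divisors ×ˢ (n.divisors ×ˢ n.divisors)).card := by
      apply Finset.card_le_card_of_injOn (fun y => (y 0 + y 1, (y 1 + y 2, y 2 + y 0)))
      · intro y hy
        have hy' := Finset.mem_filter.mp hy
        obtain ⟨_, c1, c2⟩ := hy'
        rw [Fin.sum_univ_three, Fin.sum_univ_three] at c1 c2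
        have i1 := cube_id (x 0) (x 1) (x 2)
        have i2 := cube_id (y 0) (y 1) (y 2)
        have hny : n = (y 0 + y 1) * (y 1 + y 2) * (y 2 + y 0) := by
          rw [c1, i2, c2] at i1
          rw [hn]
          omega
        show ((y 0 + y 1, (y 1 + y 2, y 2 + y 0)) : ℕ × ℕ × ℕ) ∈
          (↑(n.divisors ×ˢ (n.divisors ×ˢ n.divisors)) : Set (ℕ × ℕ × ℕ))
        rw [Finset.mem_coe, Finset.mem_product, Finset.mem_product, Nat.mem_divisors, Nat.mem_divisors,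
          Nat.mem_divisors]
        have hn0 : n ≠ 0 := by omega
        refine ⟨⟨?_, hn0⟩, ⟨?_, hn0⟩, ⟨?_, hn0⟩⟩
        · exact ⟨(y 1 + y 2) * (y 2 + y 0), by rw [hny]; ring⟩
        · exact ⟨(y 0 + y 1) * (y 2 + y 0), by rw [hny]; ring⟩
        · exact ⟨(y 0 + y 1) * (y 1 + y 2), by rw [hny]; ring⟩
      · intro y _ y' _ h
        have h' : (y 0 + y 1, (y 1 + y 2, y 2 + y 0)) = (y' 0 + y' 1, (y' 1 + y' 2, y' 2 + y' 0)) := h
        rw [Prod.mk.injEq, Prod.mk.injEq] at h'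
        obtain ⟨e1, e2, e3⟩ := h'
        funext i
        fin_cases i
        · show y 0 = y' 0
          omega
        · show y 1 = y' 1
          omega
        · show y 2 = y' 2
          omega
    rw [Finset.card_product, Finset.card_product] at h3
    calc _ ≤ n.divisors.card * (n.divisors.card * n.divisors.card) := h3
      _ ≤ D * (D * D) := Nat.mul_le_mul hdn (Nat.mul_le_mul hdn hdn)
      _ = D ^ 3 := by ring
  calc ∑ x ∈ tup 3 N, ((tup 3 N).filter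
      (fun y => ∑ i, x i = ∑ i, y i ∧ ∑ i, x i ^ 3 = ∑ i, y i ^ 3)).card ≤ ∑ _x ∈ tup 3 N, D ^ 3 :=
        Finset.sum_le_sum h2
    _ = (tup 3 N).card * D ^ 3 := by rw [Finset.sum_const, smul_eq_mul]

/-- a uniform bound for the divisor function, as a natural number -/
theorem div_nat (η : ℝ) (hη : 0 < η) : ∃ C : ℝ, 0 < C ∧ ∀ M : ℕ, 1 ≤ M → ∃ D : ℕ,
    (D : ℝ) ≤ C * (M : ℝ) ^ η ∧ ∀ m : ℕ, 1 ≤ m → m ≤ M → m.divisors.card ≤ D := by
  obtain ⟨C, hC, h⟩ := Pool.Agent.Helper112.divisor_bound η hη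
  refine ⟨C, hC, fun M hM => ⟨⌊C * (M : ℝ) ^ η⌋₊, Nat.floor_le (by positivity), fun m hm1 hm2 => ?_⟩⟩
  apply Nat.le_floor
  refine (h m hm1).trans ?_
  apply mul_le_mul_of_nonneg_left _ hC.le
  exact Real.rpow_le_rpow (by positivity) (by exact_mod_cast hm2) hη.le

theorem J_three_bd (δ : ℝ) (hδ : 0 < δ) : ∃ C : ℝ, 0 < C ∧ ∀ N : ℕ, 1 ≤ N →
    (J 3 3 N : ℝ) ≤ C * (N : ℝ) ^ (3 + δ) := by
  obtain ⟨C, hC, h⟩ := div_nat (δ / 9) (by positivity)
  refine ⟨(C * (8 : ℝ) ^ (δ / 9)) ^ 3, by positivity, fun N hN => ?_⟩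
  have hN1 : (1 : ℝ) ≤ (N : ℝ) := by exact_mod_cast hN
  have hN0 : (0 : ℝ) < (N : ℝ) := by linarith
  obtain ⟨D, hD1, hD2⟩ := h ((2 * N) ^ 3) (Nat.one_le_pow _ _ (by omega))
  have h1 := J_three N D hD2
  have h2 : (J 3 3 N : ℝ) ≤ (N : ℝ) ^ 3 * (D : ℝ) ^ 3 := by exact_mod_cast h1
  have h3 : (((2 * N) ^ 3 : ℕ) : ℝ) ^ (δ / 9) = (8 : ℝ) ^ (δ / 9) * (N : ℝ) ^ (δ / 3) := by
    have : (((2 * N) ^ 3 : ℕ) : ℝ) = 8 * (N : ℝ) ^ (3 : ℝ) := by
      push_cast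
      rw [show (3 : ℝ) = ((3 : ℕ) : ℝ) by norm_num, Real.rpow_natCast]
      ring
    rw [this, Real.mul_rpow (by norm_num) (by positivity), ← Real.rpow_mul hN0.le]
    congr 2
    ring
  rw [h3] at hD1
  have h4 : (D : ℝ) ≤ (C * (8 : ℝ) ^ (δ / 9)) * (N : ℝ) ^ (δ / 3) := by linarith
  have h5 : (D : ℝ) ^ 3 ≤ ((C * (8 : ℝ) ^ (δ / 9)) * (N : ℝ) ^ (δ / 3)) ^ 3 :=
    pow_le_pow_left₀ (Nat.cast_nonneg _) h4 3
  have h6 : ((N : ℝ) ^ (δ / 3)) ^ 3 = (N : ℝ) ^ δ := by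
    rw [← Real.rpow_natCast, ← Real.rpow_mul hN0.le]
    congr 1
    push_cast
    ring
  have h7 : (N : ℝ) ^ (3 + δ) = (N : ℝ) ^ 3 * (N : ℝ) ^ δ := by
    rw [Real.rpow_add hN0]
    congr 1
    rw [show (3 : ℝ) = ((3 : ℕ) : ℝ) by norm_num, Real.rpow_natCast]
  calc (J 3 3 N : ℝ) ≤ (N : ℝ) ^ 3 * (D : ℝ) ^ 3 := h2
    _ ≤ (N : ℝ) ^ 3 * ((C * (8 : ℝ) ^ (δ / 9)) * (N : ℝ) ^ (δ / 3)) ^ 3 :=
        mul_le_mul_of_nonneg_left h5 (by positivity)
    _ = (C * (8 : ℝ) ^ (δ / 9)) ^ 3 * (N : ℝ) ^ (3 + δ) := by rw [h7, mul_pow, h6]; ring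

end Pool.Agent.U762.WS
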