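import Pool.Agent.U762.WS.HuC

/-! # Hua type bounds for the system of degrees `1, k` -/

set_option autoImplicit false

open Finset MeasureTheory

namespace Pool.Agent.U762.WS

open Pool.Agent.TH181.MW (tup prs J two_pow_ge)

/-- the exponents -/
def kap (j : ℕ) : ℝ := (2 : ℝ) ^ (j + 1) - j - 1

theorem base (k : ℕ) (hk : 2 ≤ k) : ∀ δ : ℝ, 0 < δ → ∃ C : ℝ, 0 < C ∧ ∀ N : ℕ, 1 ≤ N →
    (J (2 ^ 1) k N : ℝ) ≤ C * (N : ℝ) ^ (kap 1 + δ) := by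
  intro δ hδ
  refine ⟨2, by norm_num, fun N hN => ?_⟩
  have hN1 : (1 : ℝ) ≤ (N : ℝ) := by exact_mod_cast hN
  have h1 := J_two k N hk
  have h2 : (J (2 ^ 1) k N : ℝ) ≤ 2 * (N : ℝ) ^ 2 := by
    rw [pow_one]
    exact_mod_cast h1
  refine h2.trans ?_
  apply mul_le_mul_of_nonneg_left _ (by norm_num)
  have h3 : (N : ℝ) ^ 2 = (N : ℝ) ^ (2 : ℝ) := by
    rw [show (2 : ℝ) = ((2 : ℕ) : ℝ) by norm_num, Real.rpow_natCast]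
  rw [h3]
  apply Real.rpow_le_rpow_of_exponent_le hN1
  unfold kap
  norm_num
  linarith

theorem next (k j : ℕ) (hj1 : 1 ≤ j) (hj : j + 1 < k)
    (ih : ∀ δ : ℝ, 0 < δ → ∃ C : ℝ, 0 < C ∧ ∀ N : ℕ, 1 ≤ N → (J (2 ^ j) k N : ℝ) ≤ C * (N : ℝ) ^ (kap j + δ)) :
    ∀ δ : ℝ, 0 < δ → ∃ C : ℝ, 0 < C ∧ ∀ N : ℕ, 1 ≤ N →
      (J (2 ^ (j + 1)) k N : ℝ) ≤ C * (N : ℝ) ^ (kap (j + 1) + δ) := by
  intro δ hδ
  obtain ⟨C1, hC1, h1⟩ := ih δ hδ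
  have hk0 : (0 : ℝ) < (k : ℝ) := by exact_mod_cast (by omega : 0 < k)
  have hj0 : (0 : ℝ) < ((j + 1 : ℕ) : ℝ) := by exact_mod_cast Nat.succ_pos j
  set η : ℝ := δ / ((k : ℝ) * ((j + 1 : ℕ) : ℝ)) with hη
  have hη0 : 0 < η := by positivity
  obtain ⟨C2, hC2, h2⟩ := div_nat η hη0
  obtain ⟨s, hs⟩ : ∃ s : ℕ, 2 ^ j = s + 1 := ⟨2 ^ j - 1, by have := Nat.one_le_two_pow (n := j); omega⟩
  set E : ℕ := 2 ^ (j + 1) - (j + 1) - 1 with hE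
  have hEE : E + (j + 1) + 1 = 2 ^ (j + 1) := by
    have := two_pow_ge (j + 1)
    omega
  set A1 : ℝ := (3 : ℝ) ^ E * (((j + 1 + k : ℕ) : ℝ) * (3 : ℝ) ^ (j + 1) * C1) with hA1
  set A2 : ℝ := (3 : ℝ) ^ E * ((2 * (C2 * (((s + 1 : ℕ) : ℝ)) ^ η)) ^ (j + 1) * (k : ℝ)) with hA2
  have hs0 : (0 : ℝ) < ((s + 1 : ℕ) : ℝ) := by exact_mod_cast Nat.succ_pos s
  have hjk : (0 : ℝ) < ((j + 1 + k : ℕ) : ℝ) := by exact_mod_cast (by omega : 0 < j + 1 + k)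
  refine ⟨A1 + A2, by positivity, fun N hN => ?_⟩
  have hN1 : (1 : ℝ) ≤ (N : ℝ) := by exact_mod_cast hN
  have hN0 : (0 : ℝ) < (N : ℝ) := by linarith
  obtain ⟨D, hD1, hD2⟩ := h2 ((s + 1) * N ^ k) (Nat.mul_pos (Nat.succ_pos s) (Nat.pow_pos (by omega)))
  have h3 := step s k N j D hj1 hj hD2
  have e1 : s + 1 + 2 ^ j = 2 ^ (j + 1) := by rw [pow_succ]; omega
  rw [e1, ← hE, ← hs] at h3
  have h4 := h1 N hN
  -- the divisor function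
  have h5 : (((s + 1) * N ^ k : ℕ) : ℝ) ^ η = (((s + 1 : ℕ) : ℝ)) ^ η * (N : ℝ) ^ ((k : ℝ) * η) := by
    have : (((s + 1) * N ^ k : ℕ) : ℝ) = ((s + 1 : ℕ) : ℝ) * (N : ℝ) ^ (k : ℝ) := by
      rw [Real.rpow_natCast]; push_cast; ring
    rw [this, Real.mul_rpow hs0.le (by positivity), ← Real.rpow_mul hN0.le]
  rw [h5] at hD1
  have h6 : (((2 * D) ^ (j + 1) * k : ℕ) : ℝ) ≤
      (2 * (C2 * (((s + 1 : ℕ) : ℝ)) ^ η)) ^ (j + 1) * (k : ℝ) * (N : ℝ) ^ δ := by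
    have g1 : (2 * (D : ℝ)) ≤ (2 * (C2 * (((s + 1 : ℕ) : ℝ)) ^ η)) * (N : ℝ) ^ ((k : ℝ) * η) := by linarith
    have g2 : (2 * (D : ℝ)) ^ (j + 1) ≤
        ((2 * (C2 * (((s + 1 : ℕ) : ℝ)) ^ η)) * (N : ℝ) ^ ((k : ℝ) * η)) ^ (j + 1) :=
      pow_le_pow_left₀ (by positivity) g1 _
    have g3 : ((N : ℝ) ^ ((k : ℝ) * η)) ^ (j + 1) = (N : ℝ) ^ δ := by
      rw [← Real.rpow_natCast, ← Real.rpow_mul hN0.le]
      congr 1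
      rw [hη]
      field_simp
    have g4 := mul_pow (2 * (C2 * (((s + 1 : ℕ) : ℝ)) ^ η)) ((N : ℝ) ^ ((k : ℝ) * η)) (j + 1)
    rw [g4, g3] at g2
    push_cast
    have := mul_le_mul_of_nonneg_right g2 hk0.le
    calc (2 * (D : ℝ)) ^ (j + 1) * (k : ℝ) ≤ _ := this
      _ = _ := by push_cast; ring
  have h7 : (2 * (N : ℝ) + 1) ≤ 3 * (N : ℝ) := by linarith
  have h8 : (((j + 1 + k) * (2 * N + 1) ^ (j + 1) : ℕ) : ℝ) ≤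
      ((j + 1 + k : ℕ) : ℝ) * ((3 : ℝ) ^ (j + 1) * (N : ℝ) ^ (j + 1)) := by
    have : (2 * (N : ℝ) + 1) ^ (j + 1) ≤ (3 * (N : ℝ)) ^ (j + 1) := pow_le_pow_left₀ (by positivity) h7 _
    rw [mul_pow] at this
    have h9 := mul_le_mul_of_nonneg_left this hjk.le
    push_cast at h9 ⊢
    exact h9
  have h9 : (2 * (N : ℝ) + 1) ^ E ≤ (3 : ℝ) ^ E * (N : ℝ) ^ E := by
    have := pow_le_pow_left₀ (by positivity) h7 E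
    rwa [mul_pow] at this
  -- exponents
  have x1 : (N : ℝ) ^ E * ((N : ℝ) ^ (j + 1) * (N : ℝ) ^ (kap j + δ)) = (N : ℝ) ^ (kap (j + 1) + δ) := by
    rw [← Real.rpow_natCast, ← Real.rpow_natCast, ← Real.rpow_add hN0, ← Real.rpow_add hN0]
    congr 1
    have : (E : ℝ) + ((j + 1 : ℕ) : ℝ) + 1 = (2 : ℝ) ^ (j + 1) := by exact_mod_cast hEE
    unfold kap
    push_cast at this ⊢
    rw [pow_succ (2 : ℝ) (j + 1)]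
    linarith
  have x2 : (N : ℝ) ^ E * ((N : ℝ) ^ δ * ((N : ℝ) ^ s * (N : ℝ) ^ (2 ^ j))) ≤ (N : ℝ) ^ (kap (j + 1) + δ) := by
    rw [← Real.rpow_natCast, ← Real.rpow_natCast, ← Real.rpow_natCast, ← Real.rpow_add hN0, ← Real.rpow_add hN0,
      ← Real.rpow_add hN0]
    apply Real.rpow_le_rpow_of_exponent_le hN1
    have t1 : (E : ℝ) + ((j + 1 : ℕ) : ℝ) + 1 = (2 : ℝ) ^ (j + 1) := by exact_mod_cast hEE
    have t2 : (2 : ℝ) ^ j = (s : ℝ) + 1 := by exact_mod_cast hs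
    unfold kap
    push_cast at t1 ⊢
    rw [pow_succ (2 : ℝ) (j + 1)]
    rw [pow_succ (2 : ℝ) j] at t1 ⊢
    linarith
  have y1 : (((j + 1 + k) * (2 * N + 1) ^ (j + 1) : ℕ) : ℝ) * (J (2 ^ j) k N : ℝ) ≤
      (((j + 1 + k : ℕ) : ℝ) * ((3 : ℝ) ^ (j + 1) * (N : ℝ) ^ (j + 1))) * (C1 * (N : ℝ) ^ (kap j + δ)) :=
    mul_le_mul h8 h4 (Nat.cast_nonneg _) (by positivity)
  have y2 : (((2 * D) ^ (j + 1) * k : ℕ) : ℝ) * ((N : ℝ) ^ s * (N : ℝ) ^ (2 ^ j)) ≤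
      ((2 * (C2 * (((s + 1 : ℕ) : ℝ)) ^ η)) ^ (j + 1) * (k : ℝ) * (N : ℝ) ^ δ) *
        ((N : ℝ) ^ s * (N : ℝ) ^ (2 ^ j)) := mul_le_mul_of_nonneg_right h6 (by positivity)
  calc (J (2 ^ (j + 1)) k N : ℝ) ≤ _ := h3
    _ ≤ ((3 : ℝ) ^ E * (N : ℝ) ^ E) * ((((j + 1 + k : ℕ) : ℝ) * ((3 : ℝ) ^ (j + 1) * (N : ℝ) ^ (j + 1))) *
        (C1 * (N : ℝ) ^ (kap j + δ)) + ((2 * (C2 * (((s + 1 : ℕ) : ℝ)) ^ η)) ^ (j + 1) * (k : ℝ) * (N : ℝ) ^ δ) *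
        ((N : ℝ) ^ s * (N : ℝ) ^ (2 ^ j))) := by
        apply mul_le_mul h9 (add_le_add y1 y2) (by positivity) (by positivity)
    _ = A1 * ((N : ℝ) ^ E * ((N : ℝ) ^ (j + 1) * (N : ℝ) ^ (kap j + δ))) +
        A2 * ((N : ℝ) ^ E * ((N : ℝ) ^ δ * ((N : ℝ) ^ s * (N : ℝ) ^ (2 ^ j)))) := by
        rw [hA1, hA2]; ring
    _ ≤ A1 * (N : ℝ) ^ (kap (j + 1) + δ) + A2 * (N : ℝ) ^ (kap (j + 1) + δ) := by
        rw [x1]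
        have hA2' : 0 ≤ A2 := by positivity
        have := mul_le_mul_of_nonneg_left x2 hA2'
        linarith
    _ = (A1 + A2) * (N : ℝ) ^ (kap (j + 1) + δ) := by ring

/-- **Hua's bounds.** -/
theorem hua (k : ℕ) (hk : 2 ≤ k) (j : ℕ) (hj1 : 1 ≤ j) (hj : j + 1 ≤ k) : ∀ δ : ℝ, 0 < δ →
    ∃ C : ℝ, 0 < C ∧ ∀ N : ℕ, 1 ≤ N → (J (2 ^ j) k N : ℝ) ≤ C * (N : ℝ) ^ (kap j + δ) := by
  induction j, hj1 using Nat.le_induction with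
  | base => exact base k hk
  | succ j hj1 ih => exact next k j hj1 (by omega) (ih (by omega))

end Pool.Agent.U762.WS
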