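import Pool.Agent.U762.WS.HuD
import Pool.Agent.TH181.MW.Max
import Pool.Agent.TH181.MW.Cov

/-! # From moments to covering numbers and to the Hausdorff dimension -/

set_option autoImplicit false

open Finset MeasureTheory

namespace Pool.Agent.U762.WS

open Pool.Agent.W928.MW (e sm sm_le sm_lip Bd ev_pow ev_log Holds)
open Pool.Agent.TH181.MW (tup prs J meas_le S_MAX_t S_COV_t S_DIMG_t)

theorem cover (k s : ℕ) (hk : 2 ≤ k) (hs : 1 ≤ s) (κ : ℝ)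
    (hJ : ∀ δ : ℝ, 0 < δ → ∃ C : ℝ, 0 < C ∧ ∀ N : ℕ, 1 ≤ N → (J s k N : ℝ) ≤ C * (N : ℝ) ^ (κ + δ))
    (ε ε' : ℝ) (hε : 0 < ε) (hεk : ε < 1 / (k : ℝ)) (hε' : 0 < ε') (hεε : ε' ≤ ε / 4) (j : ℤ) :
    ∃ i0 : ℕ, ∀ i : ℕ, i0 ≤ i → ∃ S : Finset ℝ,
      (S.card : ℝ) ≤ ((2 : ℝ) ^ i) ^ (-(2 * (s : ℝ) * (1 - 1 / (k : ℝ) + ε) - 1 - κ) + (2 * (s : ℝ) + 2) * ε' +
        ((k : ℝ) + 1 / (k : ℝ) - ε + 2 * ε')) ∧
      Bd k ε j i ⊆ ⋃ x ∈ S, Set.Icc x (x + ((2 : ℝ) ^ i) ^ (-((k : ℝ) + 1 / (k : ℝ) - ε + 2 * ε'))) := by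
  obtain ⟨C, hC0, hCI⟩ := hJ ε' hε'
  have hk2 : (2 : ℝ) ≤ (k : ℝ) := by exact_mod_cast hk
  have hk0 : (0 : ℝ) < (k : ℝ) := by linarith
  have hs1 : (1 : ℝ) ≤ (s : ℝ) := by exact_mod_cast hs
  obtain ⟨θ, hθ⟩ : ∃ θ : ℝ, θ = 1 - 1 / (k : ℝ) + ε := ⟨_, rfl⟩
  have hk1 : 1 / (k : ℝ) ≤ 1 / 2 := one_div_le_one_div_of_le (by norm_num) hk2
  have hk1' : 0 < 1 / (k : ℝ) := by positivity
  have hθ0 : 0 < θ := by rw [hθ]; linarith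
  obtain ⟨i1, h1⟩ := ev_log ε' hε' ((2 : ℝ) ^ θ)
  obtain ⟨i2, h2⟩ := ev_pow ε' hε' (4 * Real.pi)
  obtain ⟨i3, h3⟩ := ev_pow ε' hε' (((s : ℝ) + 1) * (3 * C) * 2 ^ (2 * s))
  refine ⟨i1 + i2 + i3, fun i hi => ?_⟩
  have g1 := h1 i (by omega)
  have g2 := h2 i (by omega)
  have g3 := h3 i (by omega)
  obtain ⟨X, hX⟩ : ∃ X : ℝ, X = (2 : ℝ) ^ i := ⟨_, rfl⟩
  rw [← hX] at g1 g2 g3 ⊢
  have hX1 : (1 : ℝ) ≤ X := by rw [hX]; exact one_le_pow₀ (by norm_num)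
  have hX0 : (0 : ℝ) < X := by linarith
  have hNX : (((2 ^ i : ℕ) : ℕ) : ℝ) = X := by rw [hX]; push_cast; rfl
  obtain ⟨L, hL⟩ : ∃ L : ℝ, L = (k : ℝ) + 1 / (k : ℝ) - ε + 2 * ε' := ⟨_, rfl⟩
  rw [← hL]
  have hL0 : 0 < L := by rw [hL]; linarith
  obtain ⟨μ, hμ⟩ : ∃ μ : ℝ, μ = X ^ (θ - ε') := ⟨_, rfl⟩
  have hμ0 : 0 < μ := by rw [hμ]; positivity
  obtain ⟨δ, hδ⟩ : ∃ δ : ℝ, δ = X ^ (-L) := ⟨_, rfl⟩
  rw [← hδ]
  have hδ0 : 0 < δ := by rw [hδ]; positivity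
  have hδ1 : δ ≤ 1 := by
    rw [hδ]
    exact Real.rpow_le_one_of_one_le_of_nonpos hX1 (by linarith)
  -- the maximal inequality
  have key1 : ∀ t ∈ Bd k ε j i, ∃ η : ℝ, μ < ‖sm k (2 ^ i) t η‖ := by
    rintro t ⟨_, M, hM1, hM2, ξ, hξ⟩
    by_contra hcon
    push Not at hcon
    have h4 := S_MAX_t k (2 ^ i) M t μ (Nat.one_le_two_pow) hM1 hcon ξ
    rw [hNX] at h4
    rw [← hθ] at hξ
    have h5 : (X / 2) ^ θ ≤ (M : ℝ) ^ θ := by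
      apply Real.rpow_le_rpow (by positivity) _ hθ0.le
      have : ((2 ^ i : ℕ) : ℝ) ≤ ((2 * M : ℕ) : ℝ) := by exact_mod_cast hM2
      rw [hNX] at this
      push_cast at this
      linarith
    have h6 : (X / 2) ^ θ = X ^ θ / (2 : ℝ) ^ θ := Real.div_rpow hX0.le (by norm_num) θ
    have h7 : (4 + 4 * Real.log X) * μ ≤ X ^ θ / (2 : ℝ) ^ θ := by
      rw [le_div_iff₀ (by positivity)]
      have h8 : X ^ θ = X ^ ε' * μ := by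
        rw [hμ, ← Real.rpow_add hX0]
        congr 1
        ring
      rw [h8]
      calc (4 + 4 * Real.log X) * μ * (2 : ℝ) ^ θ = ((2 : ℝ) ^ θ * (4 + 4 * Real.log X)) * μ := by ring
        _ ≤ X ^ ε' * μ := mul_le_mul_of_nonneg_right g1 hμ0.le
    have h9 : (M : ℝ) ^ θ < (M : ℝ) ^ θ := by
      calc (M : ℝ) ^ θ < ‖sm k M t ξ‖ := hξ
        _ ≤ (4 + 4 * Real.log X) * μ := h4
        _ ≤ X ^ θ / (2 : ℝ) ^ θ := h7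
        _ = (X / 2) ^ θ := h6.symm
        _ ≤ (M : ℝ) ^ θ := h5
    exact lt_irrefl _ h9
  -- local constancy
  obtain ⟨F, hF⟩ : ∃ F : Set ℝ, F = {t : ℝ | t ∈ Set.Icc (((j - 1 : ℤ)) : ℝ) (((j + 2 : ℤ)) : ℝ) ∧
    ∃ η : ℝ, μ / 2 ≤ ‖sm k (2 ^ i) t η‖} := ⟨_, rfl⟩
  have key2 : ∀ t ∈ Bd k ε j i, ∀ t' : ℝ, |t' - t| ≤ δ → t' ∈ F := by
    intro t ht t' htt
    obtain ⟨η, hη⟩ := key1 t ht
    have ht1 := ht.1
    have htt' := abs_le.mp htt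
    rw [hF]
    have c1 : (((j - 1 : ℤ)) : ℝ) = (j : ℝ) - 1 := by push_cast; ring
    have c2 : (((j + 2 : ℤ)) : ℝ) = (j : ℝ) + 2 := by push_cast; ring
    refine ⟨⟨by rw [c1]; linarith [ht1.1, htt'.1], by rw [c2]; linarith [ht1.2, htt'.2]⟩, η, ?_⟩
    have h4 := sm_lip k (2 ^ i) t t' η
    rw [hNX] at h4
    have h5 : ‖sm k (2 ^ i) t η‖ ≤ ‖sm k (2 ^ i) t η - sm k (2 ^ i) t' η‖ + ‖sm k (2 ^ i) t' η‖ := by
      have := norm_add_le (sm k (2 ^ i) t η - sm k (2 ^ i) t' η) (sm k (2 ^ i) t' η)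
      rwa [sub_add_cancel] at this
    have h6 : 2 * Real.pi * |t - t'| * X ^ (k + 1) ≤ μ / 2 := by
      have h7 : |t - t'| ≤ δ := by rw [abs_sub_comm]; exact htt
      have h8 : 2 * Real.pi * |t - t'| * X ^ (k + 1) ≤ 2 * Real.pi * δ * X ^ (k + 1) := by
        have : 0 ≤ X ^ (k + 1) := by positivity
        gcongr
      refine h8.trans ?_
      have h9 : X ^ (k + 1) = X ^ ((k : ℝ) + 1) := by
        rw [← Real.rpow_natCast]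
        congr 1
        push_cast; rfl
      have h10 : δ * X ^ ((k : ℝ) + 1) * X ^ ε' = μ := by
        rw [hδ, hμ, ← Real.rpow_add hX0, ← Real.rpow_add hX0]
        congr 1
        rw [hL, hθ]; ring
      rw [h9]
      have h11 : 0 < δ * X ^ ((k : ℝ) + 1) := by positivity
      have h12 : 4 * Real.pi * (δ * X ^ ((k : ℝ) + 1)) ≤ X ^ ε' * (δ * X ^ ((k : ℝ) + 1)) :=
        mul_le_mul_of_nonneg_right g2 h11.le
      linarith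
    linarith
  -- measure of F
  have h5 := meas_le s k (2 ^ i) (j - 1) (j + 2) (μ / 2) (by omega) (by positivity)
  rw [← hF, hNX] at h5
  have hXJ := hCI (2 ^ i) Nat.one_le_two_pow
  rw [hNX] at hXJ
  obtain ⟨V, hV⟩ : ∃ V : ℝ, V = (((s : ℝ) + 1) * (3 * C) * 2 ^ (2 * s)) * (X * X ^ (κ + ε') / μ ^ (2 * s)) := ⟨_, rfl⟩
  have h6 : volume F ≤ ENNReal.ofReal V := by
    refine h5.trans (ENNReal.ofReal_le_ofReal ?_)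
    have c3 : (((j + 2 : ℤ)) : ℝ) - (((j - 1 : ℤ)) : ℝ) = 3 := by push_cast; ring
    rw [c3]
    have a1 : (s : ℝ) * X + 1 ≤ ((s : ℝ) + 1) * X := by linarith
    have a2 : 3 * (J s k (2 ^ i) : ℝ) ≤ 3 * C * X ^ (κ + ε') := by linarith
    have h7 : ((s : ℝ) * X + 1) * (3 * (J s k (2 ^ i) : ℝ)) ≤ (((s : ℝ) + 1) * X) * (3 * C * X ^ (κ + ε')) :=
      mul_le_mul a1 a2 (by positivity) (by positivity)
    have h8 : (μ / 2) ^ (2 * s) = μ ^ (2 * s) / 2 ^ (2 * s) := div_pow _ _ _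
    rw [h8, hV]
    calc ((s : ℝ) * X + 1) * (3 * (J s k (2 ^ i) : ℝ)) / (μ ^ (2 * s) / 2 ^ (2 * s))
        ≤ (((s : ℝ) + 1) * X) * (3 * C * X ^ (κ + ε')) / (μ ^ (2 * s) / 2 ^ (2 * s)) :=
          div_le_div_of_nonneg_right h7 (by positivity)
      _ = (((s : ℝ) + 1) * (3 * C) * 2 ^ (2 * s)) * (X * X ^ (κ + ε') / μ ^ (2 * s)) := by
          field_simp
  have hV0 : 0 ≤ V := by rw [hV]; positivity
  obtain ⟨S, hS1, hS2⟩ := S_COV_t (Bd k ε j i) F δ V (j : ℝ) ((j : ℝ) + 1) hδ0 hV0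
    (fun t ht => ht.1) key2 h6
  refine ⟨S, hS1.trans ?_, hS2⟩
  have h9 : μ ^ (2 * s) = X ^ (2 * (s : ℝ) * (θ - ε')) := by
    rw [hμ, ← Real.rpow_natCast, ← Real.rpow_mul hX0.le]
    congr 1
    push_cast; ring
  have h10 : X * X ^ (κ + ε') = X ^ (1 + κ + ε') := by
    rw [show 1 + κ + ε' = 1 + (κ + ε') by ring, Real.rpow_add hX0 1, Real.rpow_one]
  rw [hV, h9, h10, hδ, ← Real.rpow_sub hX0, mul_div_assoc, ← Real.rpow_sub hX0]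
  calc (((s : ℝ) + 1) * (3 * C) * 2 ^ (2 * s)) * X ^ (1 + κ + ε' - 2 * (s : ℝ) * (θ - ε') - -L)
      ≤ X ^ ε' * X ^ (1 + κ + ε' - 2 * (s : ℝ) * (θ - ε') - -L) :=
        mul_le_mul_of_nonneg_right g3 (by positivity)
    _ = X ^ (-(2 * (s : ℝ) * (1 - 1 / (k : ℝ) + ε) - 1 - κ) + (2 * (s : ℝ) + 2) * ε' + L) := by
        rw [← Real.rpow_add hX0]
        congr 1
        rw [hθ]; ring

theorem main_ge (k N q : ℕ) (ε : ℝ) (hk : 2 ≤ k) (hN : 1 ≤ N) :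
    (N : ℝ) ^ (1 - 1 / (k : ℝ) + ε) ≤ (N : ℝ) ^ (1 + ε) *
      (1 / (q : ℝ) + 1 / (N : ℝ) + (q : ℝ) / (N : ℝ) ^ k) ^ (1 / (k : ℝ)) := by
  have hN' : (1 : ℝ) ≤ (N : ℝ) := by exact_mod_cast hN
  have hk0 : (0 : ℝ) < (k : ℝ) := by
    have : (2 : ℝ) ≤ (k : ℝ) := by exact_mod_cast hk
    linarith
  have h1 : (N : ℝ) ^ (1 - 1 / (k : ℝ) + ε) = (N : ℝ) ^ (1 + ε) * (1 / (N : ℝ)) ^ (1 / (k : ℝ)) := by
    rw [Real.div_rpow (by norm_num) (by positivity), Real.one_rpow, mul_one_div, ← Real.rpow_sub (by positivity)]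
    congr 1
    ring
  rw [h1]
  apply mul_le_mul_of_nonneg_left _ (by positivity)
  apply Real.rpow_le_rpow (by positivity) _ (by positivity)
  have h2 : 0 ≤ 1 / (q : ℝ) + (q : ℝ) / (N : ℝ) ^ k := by positivity
  linarith

theorem big_eps (k : ℕ) (hk : 2 ≤ k) (ε : ℝ) (hε : 1 / (k : ℝ) ≤ ε) (t : ℝ) : Holds k ε 1 t := by
  intro N hN ξ a q _ _ _ _ _
  have hN' : (1 : ℝ) ≤ (N : ℝ) := by exact_mod_cast hN
  refine (sm_le k N t ξ).trans ?_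
  rw [one_mul]
  refine le_trans ?_ (main_ge k N q ε hk hN)
  calc (N : ℝ) = (N : ℝ) ^ (1 : ℝ) := (Real.rpow_one _).symm
    _ ≤ (N : ℝ) ^ (1 - 1 / (k : ℝ) + ε) := Real.rpow_le_rpow_of_exponent_le hN' (by linarith)

theorem bad_sub (k : ℕ) (hk : 2 ≤ k) (ε : ℝ) (hε : 0 < ε) (t : ℝ)
    (ht : ¬ ∃ C : ℝ, 0 < C ∧ Holds k ε C t) : ∀ i1 : ℕ, ∃ i : ℕ, i1 ≤ i ∧ t ∈ Bd k ε ⌊t⌋ i := by
  intro i1
  by_contra hcon
  push Not at hcon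
  apply ht
  refine ⟨(2 : ℝ) ^ i1 + 1, by positivity, ?_⟩
  intro N hN ξ a q _ _ _ _ _
  have hN' : (1 : ℝ) ≤ (N : ℝ) := by exact_mod_cast hN
  have hk0 : (2 : ℝ) ≤ (k : ℝ) := by exact_mod_cast hk
  have hk1 : 1 / (k : ℝ) ≤ 1 / 2 := one_div_le_one_div_of_le (by norm_num) hk0
  obtain ⟨R, hR⟩ : ∃ R : ℝ, R = (N : ℝ) ^ (1 + ε) *
      (1 / (q : ℝ) + 1 / (N : ℝ) + (q : ℝ) / (N : ℝ) ^ k) ^ (1 / (k : ℝ)) := ⟨_, rfl⟩
  have h1 : (N : ℝ) ^ (1 - 1 / (k : ℝ) + ε) ≤ R := by rw [hR]; exact main_ge k N q ε hk hN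
  have h2 : 1 ≤ (N : ℝ) ^ (1 - 1 / (k : ℝ) + ε) := Real.one_le_rpow hN' (by linarith)
  have h3 : ((2 : ℝ) ^ i1 + 1) * (N : ℝ) ^ (1 + ε) *
      (1 / (q : ℝ) + 1 / (N : ℝ) + (q : ℝ) / (N : ℝ) ^ k) ^ (1 / (k : ℝ)) = ((2 : ℝ) ^ i1 + 1) * R := by
    rw [hR]; ring
  rw [h3]
  have hp : (0 : ℝ) < (2 : ℝ) ^ i1 := by positivity
  have hR1 : 1 ≤ R := h2.trans h1
  have hpR : (2 : ℝ) ^ i1 * 1 ≤ (2 : ℝ) ^ i1 * R := mul_le_mul_of_nonneg_left hR1 hp.le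
  rcases le_total N (2 ^ i1) with hN2 | hN2
  · have h4 : (N : ℝ) ≤ (2 : ℝ) ^ i1 := by exact_mod_cast hN2
    refine (sm_le k N t ξ).trans ?_
    linarith
  · obtain ⟨i, hi1, hi2⟩ : ∃ i : ℕ, N ≤ 2 ^ i ∧ 2 ^ i ≤ 2 * N := by
      refine ⟨Nat.log 2 N + 1, (Nat.lt_pow_succ_log_self (by norm_num) N).le, ?_⟩
      have := Nat.pow_log_le_self 2 (show N ≠ 0 by omega)
      rw [pow_succ]
      omega
    have hii : i1 ≤ i := by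
      have : 2 ^ i1 ≤ 2 ^ i := hN2.trans hi1
      exact (Nat.pow_le_pow_iff_right (by norm_num)).mp this
    have h5 := hcon i hii
    have h6 : ‖sm k N t ξ‖ ≤ (N : ℝ) ^ (1 - 1 / (k : ℝ) + ε) := by
      by_contra h7
      push Not at h7
      apply h5
      exact ⟨⟨Int.floor_le t, (Int.lt_floor_add_one t).le⟩, N, hi1, hi2, ξ, h7⟩
    linarith

end Pool.Agent.U762.WS
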