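import Pool.Agent.U762.WS.HuE

/-! # Hausdorff dimension of the exceptional sets -/

set_option autoImplicit false

open Finset MeasureTheory

namespace Pool.Agent.U762.WS

open Pool.Agent.W928.MW (e sm sm_le Bd Holds)
open Pool.Agent.TH181.MW (tup prs J S_DIMG_t)

theorem dimG (k s : ℕ) (hk : 2 ≤ k) (hs : 1 ≤ s) (κ : ℝ)
    (hJ : ∀ δ : ℝ, 0 < δ → ∃ C : ℝ, 0 < C ∧ ∀ N : ℕ, 1 ≤ N → (J s k N : ℝ) ≤ C * (N : ℝ) ^ (κ + δ))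
    (ε ρ : ℝ) (hε : 0 < ε) (hεk : ε < 1 / (k : ℝ)) (hρ : ρ = 2 * (s : ℝ) * (1 - 1 / (k : ℝ) + ε) - 1 - κ)
    (hρ0 : 0 < ρ) (hρ1 : ρ < (k : ℝ) + 1 / (k : ℝ)) :
    dimH {t : ℝ | ¬ ∃ C : ℝ, 0 < C ∧ Holds k ε C t} ≤ ENNReal.ofReal (1 - ρ / ((k : ℝ) + 1 / (k : ℝ))) := by
  have hk2 : (2 : ℝ) ≤ (k : ℝ) := by exact_mod_cast hk
  have hk0 : (0 : ℝ) < (k : ℝ) := by linarith
  have hs1 : (1 : ℝ) ≤ (s : ℝ) := by exact_mod_cast hs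
  obtain ⟨G, hG⟩ : ∃ G : ℝ, G = (k : ℝ) + 1 / (k : ℝ) := ⟨_, rfl⟩
  rw [← hG] at hρ1 ⊢
  have hG0 : 0 < G := by rw [hG]; positivity
  obtain ⟨D, hD⟩ : ∃ D : ℝ, D = 1 - ρ / G := ⟨_, rfl⟩
  rw [← hD]
  have hD0 : 0 < D := by rw [hD, sub_pos, div_lt_one hG0]; exact hρ1
  obtain ⟨r, hr⟩ : ∃ r : ℝ, r = ρ / G := ⟨_, rfl⟩
  have hr0 : 0 < r := by rw [hr]; positivity
  have hrG : r * G = ρ := by rw [hr]; field_simp
  obtain ⟨ε', hε'⟩ : ∃ ε' : ℝ, ε' = min (ε / 4) (r * ε / (4 * (2 * (s : ℝ) + 2))) := ⟨_, rfl⟩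
  have hε'0 : 0 < ε' := by rw [hε']; apply lt_min (by positivity) (by positivity)
  have hε'1 : ε' ≤ ε / 4 := by rw [hε']; exact min_le_left _ _
  have hε'2 : (2 * (s : ℝ) + 2) * ε' ≤ r * ε / 4 := by
    have h1 : ε' ≤ r * ε / (4 * (2 * (s : ℝ) + 2)) := by rw [hε']; exact min_le_right _ _
    have h2 : (0 : ℝ) < 2 * (s : ℝ) + 2 := by positivity
    calc (2 * (s : ℝ) + 2) * ε' ≤ (2 * (s : ℝ) + 2) * (r * ε / (4 * (2 * (s : ℝ) + 2))) :=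
          mul_le_mul_of_nonneg_left h1 h2.le
      _ = r * ε / 4 := by field_simp
  have hsub : {t : ℝ | ¬ ∃ C : ℝ, 0 < C ∧ Holds k ε C t} ⊆
      ⋃ j : ℤ, {t : ℝ | ∀ i1 : ℕ, ∃ i : ℕ, i1 ≤ i ∧ t ∈ Bd k ε j i} := by
    intro t ht
    rw [Set.mem_iUnion]
    exact ⟨⌊t⌋, bad_sub k hk ε hε t ht⟩
  refine (dimH_mono hsub).trans ?_
  rw [dimH_iUnion]
  apply iSup_le
  intro j
  obtain ⟨L, hL⟩ : ∃ L : ℝ, L = (k : ℝ) + 1 / (k : ℝ) - ε + 2 * ε' := ⟨_, rfl⟩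
  have hLG : L = G - ε + 2 * ε' := by rw [hL, hG]
  have hk1 : 1 / (k : ℝ) ≤ 1 / 2 := one_div_le_one_div_of_le (by norm_num) hk2
  have hL0 : 0 < L := by
    have : 0 < 1 / (k : ℝ) := by positivity
    rw [hL]; linarith
  have hcov := cover k s hk hs κ hJ ε ε' hε hεk hε'0 hε'1 j
  rw [← hρ, ← hL] at hcov
  refine S_DIMG_t (-ρ + (2 * (s : ℝ) + 2) * ε' + L) L D (Bd k ε j) hL0 hD0 ?_ hcov
  have e1 : L * D = L - (G - ε + 2 * ε') * r := by rw [hD, ← hr, hLG]; ring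
  have e2 : (G - ε + 2 * ε') * r = ρ - (ε - 2 * ε') * r := by rw [← hrG]; ring
  have e3 : (ε / 2) * r ≤ (ε - 2 * ε') * r := mul_le_mul_of_nonneg_right (by linarith) hr0.le
  have e4 : 0 < r * ε := by positivity
  rw [e1, e2]
  linarith

theorem big (k : ℕ) (hk : 2 ≤ k) (ε : ℝ) (hbig : 1 / (k : ℝ) ≤ ε) :
    dimH {t : ℝ | ¬ ∃ C : ℝ, 0 < C ∧ Holds k ε C t} = 0 := by
  have h1 : {t : ℝ | ¬ ∃ C : ℝ, 0 < C ∧ Holds k ε C t} = ∅ := by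
    ext t
    constructor
    · intro ht
      exact absurd ⟨1, one_pos, big_eps k hk ε hbig t⟩ ht
    · intro ht
      exact absurd ht (Set.notMem_empty t)
  rw [h1, dimH_empty]

/-- cubes -/
theorem dim_three (ε : ℝ) (hε : 0 < ε) :
    dimH {t : ℝ | ¬ ∃ C : ℝ, 0 < C ∧ Holds 3 ε C t} ≤ ENNReal.ofReal (1 - 9 * ε / 5) := by
  rcases le_or_gt (1 / ((3 : ℕ) : ℝ)) ε with hb | hb
  · rw [big 3 (by norm_num) ε hb]
    exact zero_le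
  · have h3 : ε < 1 / 3 := by simpa using hb
    have h := dimG 3 3 (by norm_num) (by norm_num) 3 J_three_bd ε (6 * ε) hε hb (by push_cast; ring) (by linarith)
      (by push_cast; linarith)
    refine h.trans (le_of_eq ?_)
    congr 1
    push_cast
    ring

/-- general degree -/
theorem dim_gen (k j : ℕ) (hk : 2 ≤ k) (hj1 : 1 ≤ j) (hj : j < k) (ε : ℝ) (hε : 0 < ε) :
    dimH {t : ℝ | ¬ ∃ C : ℝ, 0 < C ∧ Holds k ε C t} ≤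
      ENNReal.ofReal (1 - ((j : ℝ) * k - 2 ^ (j + 1) + 2 ^ (j + 1) * ε * k) / ((k : ℝ) ^ 2 + 1)) := by
  have hk2 : (2 : ℝ) ≤ (k : ℝ) := by exact_mod_cast hk
  have hk0 : (0 : ℝ) < (k : ℝ) := by linarith
  rcases le_or_gt (1 / (k : ℝ)) ε with hb | hb
  · rw [big k hk ε hb]
    exact zero_le
  obtain ⟨ρ, hρ⟩ : ∃ ρ : ℝ, ρ = (j : ℝ) - 2 ^ (j + 1) / (k : ℝ) + 2 ^ (j + 1) * ε := ⟨_, rfl⟩
  have e1 : ((j : ℝ) * k - 2 ^ (j + 1) + 2 ^ (j + 1) * ε * k) / ((k : ℝ) ^ 2 + 1) = ρ / ((k : ℝ) + 1 / (k : ℝ)) := by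
    rw [hρ]
    field_simp
  rw [e1]
  have hG0 : 0 < (k : ℝ) + 1 / (k : ℝ) := by positivity
  rcases le_or_gt ρ 0 with h0 | h0
  · refine (dimH_mono (Set.subset_univ _)).trans ?_
    rw [Real.dimH_univ]
    have : (1 : ℝ) ≤ 1 - ρ / ((k : ℝ) + 1 / (k : ℝ)) := by
      have := div_nonpos_of_nonpos_of_nonneg h0 hG0.le
      linarith
    calc (1 : ENNReal) = ENNReal.ofReal 1 := ENNReal.ofReal_one.symm
      _ ≤ _ := ENNReal.ofReal_le_ofReal this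
  · have hjk : (j : ℝ) + 1 ≤ (k : ℝ) := by exact_mod_cast hj
    have hεk : ε * k < 1 := (lt_div_iff₀ hk0).mp hb
    have hρ1 : ρ < (k : ℝ) + 1 / (k : ℝ) := by
      have h1 : (2 : ℝ) ^ (j + 1) * ε < 2 ^ (j + 1) * (1 / (k : ℝ)) := mul_lt_mul_of_pos_left hb (by positivity)
      have h2 : (2 : ℝ) ^ (j + 1) * (1 / (k : ℝ)) = 2 ^ (j + 1) / (k : ℝ) := by ring
      have h3 : 0 < 1 / (k : ℝ) := by positivity
      rw [hρ]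
      linarith
    refine dimG k (2 ^ j) hk Nat.one_le_two_pow (kap j) (hua k hk j hj1 hj) ε ρ hε hb ?_ h0 hρ1
    rw [hρ]
    unfold kap
    push_cast
    rw [pow_succ (2 : ℝ) j]
    ring

end Pool.Agent.U762.WS
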